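import Pool.Agent.W837.GB.Defs

/-!
Project GB: mean of the trace of the resolvent (S_GMEAN).
-/

set_option autoImplicit false
open MeasureTheory ProbabilityTheory Filter Topology
open scoped NNReal Matrix ComplexOrder

namespace Pool.Agent.W645.GB

open Pool.Agent.W837.GB

theorem al_herm {n m : ℕ} (a : Fin n → Matrix (Fin m) (Fin m) ℂ) (j : Fin n) :
    (al a j).IsHermitian := by
  unfold al Matrix.IsHermitian
  rw [Matrix.fromBlocks_conjTranspose]
  simp

/-- the quadratic expression in block form -/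
theorem block_expr {n m : ℕ} (a : Fin n → Matrix (Fin m) (Fin m) ℂ) (δ : ℝ)
    (M1 M2 : Matrix (Fin m) (Fin m) ℂ) :
    ∑ j, al a j * Matrix.fromBlocks (Complex.I • M1) 0 0 (Complex.I • M2) * al a j *
        Matrix.fromBlocks (Complex.I • M1) 0 0 (Complex.I • M2) +
      ((δ : ℂ) * Complex.I) • Matrix.fromBlocks (Complex.I • M1) 0 0 (Complex.I • M2) + 1 =
    Matrix.fromBlocks (-(((δ : ℂ) • (1 : Matrix (Fin m) (Fin m) ℂ) + eta a M2) * M1 - 1)) 0 0
      (-(((δ : ℂ) • (1 : Matrix (Fin m) (Fin m) ℂ) + etas a M1) * M2 - 1)) := by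
  have h1 : ∀ j, al a j * Matrix.fromBlocks (Complex.I • M1) 0 0 (Complex.I • M2) * al a j *
        Matrix.fromBlocks (Complex.I • M1) 0 0 (Complex.I • M2) =
      Matrix.fromBlocks (-(a j * M2 * (a j)ᴴ * M1)) 0 0 (-((a j)ᴴ * M1 * a j * M2)) := by
    intro j
    unfold al
    rw [Matrix.fromBlocks_multiply, Matrix.fromBlocks_multiply, Matrix.fromBlocks_multiply]
    simp only [Matrix.zero_mul, Matrix.mul_zero, add_zero, zero_add, Matrix.mul_smul,
      Matrix.smul_mul, smul_smul, Complex.I_mul_I, neg_smul, one_smul, neg_zero]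
  have h2 : ∀ (f g : Fin n → Matrix (Fin m) (Fin m) ℂ),
      ∑ j, Matrix.fromBlocks (f j) 0 0 (g j) = Matrix.fromBlocks (∑ j, f j) 0 0 (∑ j, g j) := by
    intro f g
    ext x y
    rw [Matrix.sum_apply]
    rcases x with x | x <;> rcases y with y | y <;>
      simp [Matrix.sum_apply]
  simp only [h1]
  rw [h2, Matrix.fromBlocks_smul, ← Matrix.fromBlocks_one, Matrix.fromBlocks_add,
    Matrix.fromBlocks_add]
  have e1 : ∑ j, -(a j * M2 * (a j)ᴴ * M1) = -(eta a M2 * M1) := by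
    unfold eta
    rw [Finset.sum_neg_distrib, Finset.sum_mul]
  have e2 : ∑ j, -((a j)ᴴ * M1 * a j * M2) = -(etas a M1 * M2) := by
    unfold etas
    rw [Finset.sum_neg_distrib, Finset.sum_mul]
  have e3 : ∀ K : Matrix (Fin m) (Fin m) ℂ,
      ((δ : ℂ) * Complex.I) • (Complex.I • K) = -((δ : ℂ) • K) := by
    intro K
    rw [smul_smul, mul_assoc, Complex.I_mul_I, mul_neg, mul_one, neg_smul]
  rw [e1, e2, e3, e3]
  congr 1
  · rw [Matrix.add_mul, Matrix.smul_mul, Matrix.one_mul]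
    abel
  · simp
  · simp
  · rw [Matrix.add_mul, Matrix.smul_mul, Matrix.one_mul]
    abel

theorem gmean (h1 : S_SD) (h2 : S_BLK) (h3 : S_PSD) (h4 : S_STAB) : S_GMEAN := by
  intro n m a hm hDS
  obtain ⟨C, hC0, hC⟩ := h1 (Fin m ⊕ Fin m) n (al a) (al_herm a)
  refine ⟨3 * m * C, by positivity, fun N δ hN hδ => ?_⟩
  obtain ⟨hb1, hb2⟩ := h2 n m N a δ hN hδ
  let M1 : Matrix (Fin m) (Fin m) ℂ :=
    fun x y => ∫ g, pt ((δ : ℂ) • (Q (AN a N g) δ)⁻¹) x y ∂(gam _)
  let M2 : Matrix (Fin m) (Fin m) ℂ :=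
    fun x y => ∫ g, pt ((δ : ℂ) • (Q (AN a N g)ᴴ δ)⁻¹) x y ∂(gam _)
  obtain ⟨p1, p2, p3, p4, p5, p6⟩ := h3 n m N a δ hN hδ M1 M2 (fun _ _ => rfl) (fun _ _ => rfl)
  have hM := hC N δ hN hδ (Matrix.fromBlocks (Complex.I • M1) 0 0 (Complex.I • M2)) (by
    rintro (x | x) (y | y)
    · rw [Matrix.fromBlocks_apply₁₁]
      simp only [(hb1 _ x y).1]
      rw [integral_const_mul]
      rfl
    · rw [Matrix.fromBlocks_apply₁₂]
      exact (hb2 x y).1.symm
    · rw [Matrix.fromBlocks_apply₂₁]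
      exact (hb2 x y).2.symm
    · rw [Matrix.fromBlocks_apply₂₂]
      simp only [(hb1 _ x y).2]
      rw [integral_const_mul]
      rfl)
  rw [block_expr a δ M1 M2] at hM
  have hNpos : (0 : ℝ) < N := by exact_mod_cast hN
  have hmpos : (0 : ℝ) < m := by exact_mod_cast hm
  have hs := h4 n m a δ (C / ((N : ℝ) ^ 2 * δ ^ 4)) M1 M2 hm hDS hδ (by positivity) p1 p2 p3 p4
    (by
      intro x y
      have h := hM (Sum.inl x) (Sum.inl y)
      rw [Matrix.fromBlocks_apply₁₁, Matrix.neg_apply, norm_neg] at h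
      exact h)
    (by
      intro x y
      have h := hM (Sum.inr x) (Sum.inr y)
      rw [Matrix.fromBlocks_apply₂₂, Matrix.neg_apply, norm_neg] at h
      exact h)
  refine ⟨p5, ?_⟩
  rw [p6]
  have e1 : (N : ℝ) * M1.trace.re / (m * N) = M1.trace.re / m := by
    field_simp
  rw [e1]
  refine hs.trans (le_of_eq ?_)
  field_simp

end Pool.Agent.W645.GB
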