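import Pool.Agent.W837.GB.Defs

/-!
Project GB: the law of the GUE family of the frozen statement (S_TRANS).
-/

set_option autoImplicit false
open MeasureTheory ProbabilityTheory Filter Topology
open scoped NNReal Matrix ComplexOrder

namespace Pool.Agent.W645.GB

open Pool.Agent.W837.GB

/-! ### independence of blocks of coordinates -/

theorem indep_two {ι : Type} [Fintype ι] (ν : Measure ℝ) [IsProbabilityMeasure ν]
    (U V : Finset ι) (hUV : Disjoint U V) (A B : Set (ι → ℝ)) (hA : MeasurableSet A)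
    (hB : MeasurableSet B)
    (hAd : ∀ a a' : ι → ℝ, (∀ i ∈ U, a i = a' i) → (a ∈ A ↔ a' ∈ A))
    (hBd : ∀ a a' : ι → ℝ, (∀ i ∈ V, a i = a' i) → (a ∈ B ↔ a' ∈ B)) :
    Measure.pi (fun _ : ι => ν) (A ∩ B) =
      Measure.pi (fun _ : ι => ν) A * Measure.pi (fun _ : ι => ν) B := by
  classical
  have hi : iIndepFun (fun (i : ι) (ω : ι → ℝ) => ω i) (Measure.pi (fun _ : ι => ν)) :=
    iIndepFun_pi (X := fun (_ : ι) (x : ℝ) => x) (fun i => aemeasurable_id)
  have h2 := hi.indepFun_finset U V hUV (fun i => measurable_pi_apply i)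
  have key : ∀ (W : Finset ι) (D : Set (ι → ℝ)), MeasurableSet D →
      (∀ a a' : ι → ℝ, (∀ i ∈ W, a i = a' i) → (a ∈ D ↔ a' ∈ D)) →
      ∃ D' : Set (W → ℝ), MeasurableSet D' ∧ D = (fun (a : ι → ℝ) (i : W) => a i) ⁻¹' D' := by
    intro W D hD hDd
    have hmeas : Measurable (fun (b : W → ℝ) (i : ι) => if h : i ∈ W then b ⟨i, h⟩ else 0) := by
      rw [measurable_pi_iff]
      intro i
      by_cases h : i ∈ W
      · simp only [dif_pos h]
        exact measurable_pi_apply _
      · simp only [dif_neg h]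
        exact measurable_const
    refine ⟨(fun (b : W → ℝ) (i : ι) => if h : i ∈ W then b ⟨i, h⟩ else 0) ⁻¹' D, hmeas hD, ?_⟩
    ext a
    rw [Set.mem_preimage, Set.mem_preimage]
    apply hDd
    intro i hiW
    simp only [dif_pos hiW]
  obtain ⟨A', hA', eA⟩ := key U A hA hAd
  obtain ⟨B', hB', eB⟩ := key V B hB hBd
  have h3 := h2.measure_inter_preimage_eq_mul A' B' hA' hB'
  rw [eA, eB]
  exact h3

theorem indep_blocks {ι σ : Type} [Fintype ι] [DecidableEq σ] (ν : Measure ℝ)
    [IsProbabilityMeasure ν]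
    (π' : ι → σ) (S : Finset σ) (G : σ → Set (ι → ℝ)) (hG : ∀ s, MeasurableSet (G s))
    (hdep : ∀ s, ∀ a a' : ι → ℝ, (∀ i, π' i = s → a i = a' i) → (a ∈ G s ↔ a' ∈ G s)) :
    Measure.pi (fun _ : ι => ν) (⋂ s ∈ S, G s) = ∏ s ∈ S, Measure.pi (fun _ : ι => ν) (G s) := by
  classical
  induction S using Finset.induction_on with
  | empty => simp
  | insert s0 S' hs ih =>
    rw [Finset.prod_insert hs, ← ih]
    have h1 : (⋂ s ∈ insert s0 S', G s) = G s0 ∩ ⋂ s ∈ S', G s := by
      rw [Finset.set_biInter_insert]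
    rw [h1]
    apply indep_two ν (Finset.univ.filter (fun i => π' i = s0))
      (Finset.univ.filter (fun i => π' i ∈ S'))
    · rw [Finset.disjoint_left]
      intro i hi hi'
      rw [Finset.mem_filter] at hi hi'
      exact hs (hi.2 ▸ hi'.2)
    · exact hG s0
    · exact Finset.measurableSet_biInter S' (fun s _ => hG s)
    · intro a a' h
      exact hdep s0 a a' (fun i hi => h i (Finset.mem_filter.2 ⟨Finset.mem_univ _, hi⟩))
    · intro a a' h
      simp only [Set.mem_iInter]
      refine forall_congr' (fun s => forall_congr' (fun hsS => ?_))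
      exact hdep s a a' (fun i hi => h i (Finset.mem_filter.2 ⟨Finset.mem_univ _, hi ▸ hsS⟩))

/-- functions of disjoint blocks of coordinates are independent -/
theorem iIndepFun_blocks {ι σ : Type} [Fintype ι] [DecidableEq σ] {γ : Type} [MeasurableSpace γ]
    (π' : ι → σ) (Y : σ → (ι → ℝ) → γ) (hY : ∀ s, Measurable (Y s))
    (hdep : ∀ s, ∀ a a' : ι → ℝ, (∀ i, π' i = s → a i = a' i) → Y s a = Y s a') :
    iIndepFun Y (gam ι) := by
  classical
  rw [iIndepFun_iff_measure_inter_preimage_eq_mul]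
  intro S sets hsets
  have h := indep_blocks (gaussianReal 0 1) π' S
    (fun s => if s ∈ S then Y s ⁻¹' sets s else Set.univ) (by
      intro s
      by_cases hs : s ∈ S
      · simp only [if_pos hs]
        exact hY s (hsets s hs)
      · simp only [if_neg hs]
        exact MeasurableSet.univ) (by
      intro s a a' haa
      by_cases hs : s ∈ S
      · simp only [if_pos hs, Set.mem_preimage]
        rw [hdep s a a' haa]
      · simp only [if_neg hs, Set.mem_univ])
  have e1 : (⋂ s ∈ S, (if s ∈ S then Y s ⁻¹' sets s else Set.univ)) =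
      ⋂ s ∈ S, Y s ⁻¹' sets s := by
    refine Set.iInter₂_congr fun s hs => ?_
    rw [if_pos hs]
  have e2 : ∏ s ∈ S, Measure.pi (fun _ : ι => gaussianReal 0 1)
      (if s ∈ S then Y s ⁻¹' sets s else Set.univ) =
      ∏ s ∈ S, Measure.pi (fun _ : ι => gaussianReal 0 1) (Y s ⁻¹' sets s) := by
    refine Finset.prod_congr rfl fun s hs => ?_
    rw [if_pos hs]
  rw [e1, e2] at h
  exact h

/-! ### Gaussian marginals -/

instance instProbGam (ι : Type) [Fintype ι] : IsProbabilityMeasure (gam ι) := by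
  unfold gam
  infer_instance

theorem map_eval (ι : Type) [Fintype ι] (i : ι) :
    (gam ι).map (fun g : ι → ℝ => g i) = gaussianReal 0 1 :=
  (measurePreserving_eval (fun _ : ι => gaussianReal 0 1) i).map_eq

theorem map_eval_two (ι : Type) [Fintype ι] (i j : ι) (hij : i ≠ j) :
    (gam ι).map (fun g : ι → ℝ => (g i, g j)) = (gaussianReal 0 1).prod (gaussianReal 0 1) := by
  have hi : iIndepFun (fun (i : ι) (ω : ι → ℝ) => ω i) (gam ι) :=
    iIndepFun_pi (X := fun (_ : ι) (x : ℝ) => x) (fun i => aemeasurable_id)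
  have h := (indepFun_iff_map_prod_eq_prod_map_map (measurable_pi_apply i).aemeasurable
    (measurable_pi_apply j).aemeasurable).1 (hi.indepFun hij)
  rw [h, map_eval, map_eval]

theorem var_one (N : ℕ) :
    (NNReal.mk (((Real.sqrt N)⁻¹) ^ 2) (sq_nonneg _)) * 1 = 1 / (N : ℝ≥0) := by
  apply NNReal.eq
  push_cast
  rw [mul_one, inv_pow, Real.sq_sqrt (Nat.cast_nonneg N), one_div]

theorem var_two (N : ℕ) :
    (NNReal.mk (((Real.sqrt N)⁻¹ * (Real.sqrt 2)⁻¹) ^ 2) (sq_nonneg _)) * 1 =
      1 / (2 * (N : ℝ≥0)) := by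
  apply NNReal.eq
  push_cast
  rw [mul_one, mul_pow, inv_pow, inv_pow, Real.sq_sqrt (Nat.cast_nonneg N),
    Real.sq_sqrt (by norm_num), one_div, mul_inv, mul_comm]

theorem gauss_scale (c : ℝ) (v : ℝ≥0) (h : (NNReal.mk (c ^ 2) (sq_nonneg _)) * 1 = v) :
    (gaussianReal 0 1).map (fun x => c * x) = gaussianReal 0 v := by
  have h1 := gaussianReal_map_const_mul (μ := 0) (v := 1) c
  rw [mul_zero, h] at h1
  exact h1

/-- half sum and half difference -/
theorem map_half (N : ℕ) :
    ((gaussianReal 0 1).prod (gaussianReal 0 1)).map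
      (fun p : ℝ × ℝ => ((Real.sqrt N)⁻¹ * ((p.1 + p.2) / 2), (Real.sqrt N)⁻¹ * ((p.1 - p.2) / 2))) =
    (gaussianReal 0 (1 / (2 * (N : ℝ≥0)))).prod (gaussianReal 0 (1 / (2 * (N : ℝ≥0)))) := by
  have hrot := IsGaussian.map_rotation_eq_self (μ := gaussianReal 0 1) (by
    simp) (Real.pi / 4)
  have hswap : ((gaussianReal 0 1).prod (gaussianReal 0 1)).map Prod.swap =
      (gaussianReal 0 1).prod (gaussianReal 0 1) := Measure.prod_swap
  have hsc := gauss_scale ((Real.sqrt N)⁻¹ * (Real.sqrt 2)⁻¹) _ (var_two N)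
  conv_rhs => rw [← hsc]
  rw [Measure.map_prod_map _ _ (by fun_prop) (by fun_prop)]
  conv_rhs => rw [← hrot]
  conv_rhs => rw [← hswap]
  rw [Measure.map_map (by fun_prop) (by fun_prop), Measure.map_map (by fun_prop) (by fun_prop)]
  congr 1
  funext p
  have h2 : Real.sqrt 2 ^ 2 = 2 := Real.sq_sqrt (by norm_num)
  have h3 : Real.sqrt 2 ≠ 0 := by positivity
  have h4 : (Real.sqrt 2)⁻¹ * (Real.sqrt 2 / 2) = 1 / 2 := by
    field_simp
  simp only [Function.comp, Prod.map, ContinuousLinearMap.rotation_apply, Prod.swap,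
    Real.cos_pi_div_four, Real.sin_pi_div_four, smul_eq_mul]
  ext
  · change (Real.sqrt N)⁻¹ * ((p.1 + p.2) / 2) = _
    linear_combination (-(Real.sqrt N)⁻¹ * (p.1 + p.2)) * h4
  · change (Real.sqrt N)⁻¹ * ((p.1 - p.2) / 2) = _
    linear_combination (-(Real.sqrt N)⁻¹ * (p.1 - p.2)) * h4

/-! ### The family of entries -/

/-- the index set of the entries on and above the diagonal -/
abbrev II (n N : ℕ) : Type := {p : Fin n × Fin N × Fin N // p.2.1 ≤ p.2.2}

/-- extension by Hermitian symmetry -/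
noncomputable def ext (n N : ℕ) (w : II n N → ℂ) (i : Fin n) (k l : Fin N) : ℂ :=
  if h : k ≤ l then w ⟨(i, k, l), h⟩
  else (starRingEnd ℂ) (w ⟨(i, l, k), le_of_lt (not_le.1 h)⟩)

theorem measurable_ext (n N : ℕ) : Measurable (ext n N) := by
  rw [measurable_pi_iff]
  intro i
  rw [measurable_pi_iff]
  intro k
  rw [measurable_pi_iff]
  intro l
  unfold ext
  by_cases h : k ≤ l
  · simp only [dif_pos h]
    exact measurable_pi_apply _
  · simp only [dif_neg h]
    exact Complex.continuous_conj.measurable.comp (measurable_pi_apply _)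

/-- the entries of the Gaussian matrices -/
noncomputable def Yg (n N : ℕ) (p : II n N) (g : Fin n × Fin N × Fin N → ℝ) : ℂ :=
  (((Real.sqrt N)⁻¹ : ℝ) : ℂ) * Hm (fun x y => g (p.1.1, x, y)) p.1.2.1 p.1.2.2

theorem Hm_conj {κ : Type} (g : κ → κ → ℝ) (k l : κ) :
    (starRingEnd ℂ) (Hm g l k) = Hm g k l := by
  unfold Hm
  rw [map_add, map_mul, Complex.conj_I, Complex.conj_ofReal, Complex.conj_ofReal]
  push_cast
  ring

theorem measurable_Yg (n N : ℕ) (p : II n N) : Measurable (Yg n N p) := by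
  unfold Yg Hm
  fun_prop

theorem indep_Yg (n N : ℕ) : iIndepFun (Yg n N) (gam (Fin n × Fin N × Fin N)) := by
  refine iIndepFun_blocks
    (fun q => (⟨(q.1, min q.2.1 q.2.2, max q.2.1 q.2.2), min_le_max⟩ : II n N)) _
    (measurable_Yg n N) ?_
  rintro ⟨⟨i, k, l⟩, hkl⟩ a a' h
  have hkl' : k ≤ l := hkl
  have h1 : a (i, k, l) = a' (i, k, l) := by
    apply h
    simp [min_eq_left hkl', max_eq_right hkl']
  have h2 : a (i, l, k) = a' (i, l, k) := by
    apply h
    simp [min_eq_right hkl', max_eq_left hkl']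
  unfold Yg Hm
  simp only [h1, h2]

theorem map_Yg_diag (n N : ℕ) (i : Fin n) (j : Fin N) :
    (gam (Fin n × Fin N × Fin N)).map (Yg n N ⟨(i, j, j), le_refl j⟩) =
      (gaussianReal 0 (1 / (N : ℝ≥0))).map (fun x : ℝ => (x : ℂ)) := by
  rw [← gauss_scale ((Real.sqrt N)⁻¹) _ (var_one N), ← map_eval _ (i, j, j),
    Measure.map_map (by fun_prop) (by fun_prop), Measure.map_map (by fun_prop) (by fun_prop)]
  congr 1
  funext g
  simp only [Yg, Hm, Function.comp]
  push_cast
  ring

theorem map_Yg_off (n N : ℕ) (i : Fin n) (j k : Fin N) (hjk : j < k) :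
    (gam (Fin n × Fin N × Fin N)).map (Yg n N ⟨(i, j, k), hjk.le⟩) =
      ((gaussianReal 0 (1 / (2 * (N : ℝ≥0)))).prod
        (gaussianReal 0 (1 / (2 * (N : ℝ≥0))))).map
        (fun x : ℝ × ℝ => Complex.equivRealProd.symm x) := by
  have hne : ((i, j, k) : Fin n × Fin N × Fin N) ≠ (i, k, j) := by
    intro h
    have h1 := congrArg (fun q : Fin n × Fin N × Fin N => q.2.1) h
    exact hjk.ne h1
  have hm : Measurable (fun x : ℝ × ℝ => Complex.equivRealProd.symm x) :=
    Complex.measurableEquivRealProd.symm.measurable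
  rw [← map_half N, ← map_eval_two _ _ _ hne,
    Measure.map_map hm (by fun_prop), Measure.map_map (hm.comp (by fun_prop)) (by fun_prop)]
  congr 1
  funext g
  simp only [Yg, Hm, Function.comp, Complex.equivRealProd_symm_apply]
  push_cast
  ring

theorem trans : S_TRANS := by
  intro n N Ω _ P _ X hN hH hI hdiag hoff
  -- the entries on and above the diagonal
  let Y : II n N → Ω → ℂ := fun p ω => X p.1.1 ω p.1.2.1 p.1.2.2
  have hmap : ∀ p : II n N, P.map (Y p) = (gam (Fin n × Fin N × Fin N)).map (Yg n N p) := by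
    rintro ⟨⟨i, k, l⟩, hkl⟩
    rcases eq_or_lt_of_le (show k ≤ l from hkl) with h | h
    · subst h
      rw [map_Yg_diag]
      exact hdiag i k
    · rw [map_Yg_off n N i k l h]
      exact hoff i k l h
  have hgprob : IsProbabilityMeasure (gam (Fin n × Fin N × Fin N)) := by
    unfold gam
    infer_instance
  have hYae : ∀ p : II n N, AEMeasurable (Y p) P := by
    intro p
    apply AEMeasurable.of_map_ne_zero
    rw [hmap p]
    have : IsProbabilityMeasure ((gam (Fin n × Fin N × Fin N)).map (Yg n N p)) :=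
      Measure.isProbabilityMeasure_map (measurable_Yg n N p).aemeasurable
    exact IsProbabilityMeasure.ne_zero _
  have hYlaw := (iIndepFun_iff_map_fun_eq_pi_map hYae).1 hI
  have hglaw := (iIndepFun_iff_map_fun_eq_pi_map
    (fun p => (measurable_Yg n N p).aemeasurable)).1 (indep_Yg n N)
  have hlaw : P.map (fun ω p => Y p ω) =
      (gam (Fin n × Fin N × Fin N)).map (fun g p => Yg n N p g) := by
    rw [hYlaw, hglaw]
    congr 1
    funext p
    exact hmap p
  have hYfam : AEMeasurable (fun ω p => Y p ω) P := aemeasurable_pi_lambda _ hYae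
  have e1 : (fun ω (i : Fin n) (k l : Fin N) => X i ω k l) =
      ext n N ∘ (fun ω p => Y p ω) := by
    funext ω i k l
    simp only [Function.comp, ext]
    by_cases h : k ≤ l
    · rw [dif_pos h]
    · rw [dif_neg h]
      exact ((hH i ω).apply k l).symm
  have e2 : (fun (g : Fin n × Fin N × Fin N → ℝ) (i : Fin n) (k l : Fin N) =>
      (((Real.sqrt N)⁻¹ : ℝ) : ℂ) * Hm (fun x y => g (i, x, y)) k l) =
      ext n N ∘ (fun g p => Yg n N p g) := by
    funext g i k l
    simp only [Function.comp, ext, Yg]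
    by_cases h : k ≤ l
    · rw [dif_pos h]
    · rw [dif_neg h, map_mul, Complex.conj_ofReal, Hm_conj]
  have hm2 : Measurable (fun (g : Fin n × Fin N × Fin N → ℝ) (p : II n N) => Yg n N p g) :=
    measurable_pi_lambda _ (fun p => measurable_Yg n N p)
  refine ⟨?_, ?_⟩
  · rw [e1]
    exact (measurable_ext n N).comp_aemeasurable hYfam
  · rw [e1, e2, ← AEMeasurable.map_map_of_aemeasurable (measurable_ext n N).aemeasurable hYfam,
      hlaw, Measure.map_map (measurable_ext n N) hm2]

end Pool.Agent.W645.GB
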